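import Pool.Agent.Helper48.TF.Defs4

/-!
# TF, part CNT: permutations without long decreasing subsequences
-/

set_option autoImplicit false

namespace Pool.Agent.Helper66.TF.CNT

open Pool.TF48
open scoped Classical

variable {n : ℕ}

/-- there is a decreasing subsequence of length `m + 1` ending in `i` -/
def Sq (σ : Equiv.Perm (Fin n)) (i : Fin n) (m : ℕ) : Prop :=
  ∃ p : Fin (m + 1) → Fin n, StrictMono p ∧ StrictAnti (fun a => σ (p a)) ∧ p (Fin.last m) = i

lemma sq_zero (σ : Equiv.Perm (Fin n)) (i : Fin n) : Sq σ i 0 :=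
  ⟨fun _ => i, fun a b h => absurd h (by rw [Fin.lt_def]; omega),
    fun a b h => absurd h (by rw [Fin.lt_def]; omega), rfl⟩

lemma sq_bad {σ : Equiv.Perm (Fin n)} {i : Fin n} {m k : ℕ} (h : Sq σ i m) (hk : k ≤ m) :
    Bad (k + 1) n σ := by
  obtain ⟨p, h1, h2, -⟩ := h
  have hc : StrictMono (Fin.castLE (show k + 1 ≤ m + 1 by omega)) :=
    Fin.strictMono_castLE _
  exact ⟨fun a => p (Fin.castLE (by omega) a), fun a b hab => h1 (hc hab),
    fun a b hab => h2 (hc hab)⟩

lemma sq_le {σ : Equiv.Perm (Fin n)} {i : Fin n} {m : ℕ} (h : Sq σ i m) : m ≤ n := by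
  obtain ⟨p, h1, -, -⟩ := h
  have := Fintype.card_le_of_injective p h1.injective
  simp only [Fintype.card_fin] at this
  omega

/-- the largest length minus one -/
noncomputable def ell (σ : Equiv.Perm (Fin n)) (i : Fin n) : ℕ := Nat.findGreatest (Sq σ i) n

lemma ell_spec (σ : Equiv.Perm (Fin n)) (i : Fin n) : Sq σ i (ell σ i) :=
  Nat.findGreatest_spec (Nat.zero_le n) (sq_zero σ i)

lemma le_ell {σ : Equiv.Perm (Fin n)} {i : Fin n} {m : ℕ} (h : Sq σ i m) : m ≤ ell σ i :=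
  Nat.le_findGreatest (sq_le h) h

lemma sq_succ {σ : Equiv.Perm (Fin n)} {i j : Fin n} {m : ℕ} (hij : i < j) (hσ : σ j < σ i)
    (h : Sq σ i m) : Sq σ j (m + 1) := by
  obtain ⟨p, h1, h2, h3⟩ := h
  refine ⟨Fin.snoc (α := fun _ => Fin n) p j, ?_, ?_, Fin.snoc_last _ _⟩
  · refine Fin.strictMono_iff_lt_succ.mpr fun a => ?_
    refine Fin.lastCases ?_ (fun b => ?_) a
    · rw [Fin.snoc_castSucc, Fin.succ_last, Fin.snoc_last, h3]
      exact hij
    · rw [Fin.snoc_castSucc, Fin.succ_castSucc, Fin.snoc_castSucc]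
      exact h1 (Fin.castSucc_lt_succ)
  · refine Fin.strictAnti_iff_succ_lt.mpr fun a => ?_
    refine Fin.lastCases ?_ (fun b => ?_) a
    · rw [Fin.snoc_castSucc, Fin.succ_last, Fin.snoc_last, h3]
      exact hσ
    · rw [Fin.snoc_castSucc, Fin.succ_castSucc, Fin.snoc_castSucc]
      exact h2 (Fin.castSucc_lt_succ)

lemma lt_of_ell_eq {σ : Equiv.Perm (Fin n)} {i j : Fin n} (hij : i < j)
    (h : ell σ i = ell σ j) : σ i < σ j := by
  by_contra hc
  rcases lt_or_eq_of_le (not_lt.mp hc) with h1 | h1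
  · have := le_ell (sq_succ hij h1 (ell_spec σ i))
    omega
  · exact hij.ne (σ.injective h1.symm)

lemma lt_of_lt {σ : Equiv.Perm (Fin n)} {i j : Fin n} (hs : σ i < σ j)
    (h : ell σ i = ell σ j) : i < j := by
  by_contra hc
  rcases lt_or_eq_of_le (not_lt.mp hc) with h1 | h1
  · exact absurd (lt_of_ell_eq h1 h.symm) (not_lt.mpr hs.le)
  · rw [h1] at hs
    exact lt_irrefl _ hs

lemma step {σ τ : Equiv.Perm (Fin n)} (h1 : ∀ i, ell σ i = ell τ i)
    (h2 : ∀ v, ell σ (σ.symm v) = ell τ (τ.symm v)) (i : Fin n)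
    (ih : ∀ j, j < i → σ j = τ j) : ¬ σ i < τ i := by
  intro hlt
  have e1 : τ (τ.symm (σ i)) = σ i := τ.apply_symm_apply _
  have e2 : ell τ (τ.symm (σ i)) = ell τ i := by
    rw [← h2, σ.symm_apply_apply, h1]
  have e3 : τ.symm (σ i) < i := lt_of_lt (by rw [e1]; exact hlt) e2
  have e4 := ih _ e3
  rw [e1] at e4
  exact e3.ne (σ.injective e4)

lemma inj {σ τ : Equiv.Perm (Fin n)} (h1 : ∀ i, ell σ i = ell τ i)
    (h2 : ∀ v, ell σ (σ.symm v) = ell τ (τ.symm v)) : σ = τ := by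
  have key : ∀ m : ℕ, ∀ i : Fin n, i.val = m → σ i = τ i := by
    intro m
    induction m using Nat.strong_induction_on with
    | _ m ih =>
      intro i hi
      have ih' : ∀ j, j < i → σ j = τ j := fun j hj => ih j.val (by rw [← hi]; exact hj) j rfl
      have a1 := step h1 h2 i ih'
      have a2 := step (fun i => (h1 i).symm) (fun v => (h2 v).symm) i
        (fun j hj => (ih' j hj).symm)
      exact le_antisymm (not_lt.mp a2) (not_lt.mp a1)
  exact Equiv.ext fun i => key i.val i rfl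

theorem main : S_CNT := by
  intro k n
  have hb : ∀ σ : {σ : Equiv.Perm (Fin n) // ¬ Bad (k + 1) n σ}, ∀ i, ell σ.1 i < k := by
    intro σ i
    by_contra hc
    exact σ.2 (sq_bad (ell_spec σ.1 i) (not_lt.mp hc))
  let Φ : {σ : Equiv.Perm (Fin n) // ¬ Bad (k + 1) n σ} → (Fin n → Fin k) × (Fin n → Fin k) :=
    fun σ => (fun i => ⟨ell σ.1 i, hb σ i⟩, fun v => ⟨ell σ.1 (σ.1.symm v), hb σ _⟩)
  have hΦ : Function.Injective Φ := by
    intro σ τ h
    have e1 := congrArg Prod.fst h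
    have e2 := congrArg Prod.snd h
    refine Subtype.ext (inj (fun i => ?_) (fun v => ?_))
    · exact Fin.mk.inj_iff.mp (congrFun e1 i)
    · exact Fin.mk.inj_iff.mp (congrFun e2 v)
  refine (Nat.card_le_card_of_injective Φ hΦ).trans (le_of_eq ?_)
  rw [Nat.card_prod, Nat.card_eq_fintype_card, Fintype.card_fun, Fintype.card_fin,
    Fintype.card_fin, ← pow_add, two_mul]

end Pool.Agent.Helper66.TF.CNT
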